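import Pool.Agent.H620R2.Gauge.Defs

/-!
# Classes relative to an oracle

(`Oracle`, `Alg`, `IsFP` and `IsP` are defined in `Pool.Agent.H620R2.Gauge.Defs`.)
-/

set_option autoImplicit false

namespace Pool.Agent.W2helper58.BR

open Pool.Agent.NPC Pool.Agent.H620R2.Gauge

/-- `L` is in `NP` relative to `A` -/
def IsNP (A : Oracle) (L : Set (List Bool)) : Prop :=
  ∃ (V : List Bool → List Bool) (p : Polynomial ℕ), IsFP A V ∧
    ∀ x, x ∈ L ↔ ∃ w : List Bool, w.length ≤ p.eval x.length ∧ V (pairBits w x) = [true]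

/-- `L` is in `UP` relative to `A`: there is at most one certificate. -/
def IsUP (A : Oracle) (L : Set (List Bool)) : Prop :=
  ∃ (V : List Bool → List Bool) (p : Polynomial ℕ), IsFP A V ∧
    (∀ x, x ∈ L ↔ ∃ w : List Bool, w.length ≤ p.eval x.length ∧ V (pairBits w x) = [true]) ∧
    ∀ x w w' : List Bool, w.length ≤ p.eval x.length → V (pairBits w x) = [true] →
      w'.length ≤ p.eval x.length → V (pairBits w' x) = [true] → w = w'

/-- many-one reducibility in polynomial time relative to `A` -/
def Red (A : Oracle) (L L' : Set (List Bool)) : Prop :=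
  ∃ f : List Bool → List Bool, IsFP A f ∧ ∀ x, x ∈ L ↔ f x ∈ L'

/-- `L` is complete for `NP` relative to `A` -/
def Complete (A : Oracle) (L : Set (List Bool)) : Prop := IsNP A L ∧ ∀ L', IsNP A L' → Red A L' L

end Pool.Agent.W2helper58.BR
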