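import Pool.Agent.H620R2.GaugeR.Seq
import Pool.Agent.H620R2.Gauge.A1

/-!
# Oracles with names for tuples of instances
-/

set_option autoImplicit false

namespace Pool.Agent.W2helper58.BR

open Pool.Agent.NPC Pool.Agent.H620R2.Gauge

/-- a tuple of instances: the bound for their lengths, the number of the connective, the instances -/
abbrev Tup : Type := ℕ × ℕ × List (List Bool)

/-- the data of a question for a bit of a name -/
abbrev CQ : Type := List Bool × (List Bool × (List Bool × List (List Bool)))

/-- the meaning of a string: `(b, c, w)` is the question whether `w` is the witness for the value `b` of the name `c`,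
and `(τ, j)` asks for the bit number `j` of the name of the tuple `τ` -/
abbrev Item : Type := (Bool × List Bool × List Bool) ⊕ (Tup × ℕ)

/-- the meaning of a string -/
def dec : List Bool → Option Item
  | [] => none
  | false :: r => (unbits CQ r).bind fun q =>
      if q.2.2.2.all (fun x => decide (x.length ≤ q.1.length)) = true then
        some (Sum.inr ((q.1.length, q.2.1.length, q.2.2.2), q.2.2.1.length)) else none
  | [true] => none
  | true :: b :: r =>
      if r = [] ∨ r.length % 2 = 1 then none else
        some (Sum.inl (b, r.take (r.length / 2), r.drop (r.length / 2)))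

/-- the level of an item -/
def par : Item → ℕ
  | Sum.inl d => d.2.1.length - 1
  | Sum.inr d => d.1.1

/-- the string for the question `(b, c, w)` -/
def wq (b : Bool) (c w : List Bool) : List Bool := true :: b :: (c ++ w)

/-- the string for the question for the bit number `|jj|` of the name of a tuple -/
def cq (a i jj : List Bool) (l : List (List Bool)) : List Bool := false :: bits ((a, i, jj, l) : CQ)

theorem dec_wq (b : Bool) (c w : List Bool) (h : c ≠ []) (hw : w.length = c.length) :
    dec (wq b c w) = some (Sum.inl (b, c, w)) := by
  unfold dec wq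
  have h1 : (c ++ w).length = 2 * c.length := by rw [List.length_append]; omega
  have h2 : ¬ (c ++ w = [] ∨ (c ++ w).length % 2 = 1) := by
    rw [h1]
    rintro (h3 | h3)
    · exact h (List.append_eq_nil_iff.1 h3).1
    · omega
  have h3 : 2 * c.length / 2 = c.length := by omega
  simp only [h1, h3]
  rw [if_neg (by rw [← h1]; exact h2)]
  simp

theorem dec_wq_nil (b : Bool) : dec (wq b [] []) = none := by
  simp [dec, wq]

theorem dec_cq (a i jj : List Bool) (l : List (List Bool)) (h : ∀ x ∈ l, x.length ≤ a.length) :
    dec (cq a i jj l) = some (Sum.inr ((a.length, i.length, l), jj.length)) := by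
  unfold dec cq
  simp only [unbits_bits, Option.bind_some]
  rw [if_pos]
  rw [List.all_eq_true]
  intro x hx
  rw [decide_eq_true_eq]
  exact h x hx

/-- the tuple is legal -/
def Legal (τ : Tup) : Prop := ∀ x ∈ τ.2.2, x.length ≤ τ.1

theorem dec_inr {u : List Bool} {τ : Tup} {j : ℕ} (h : dec u = some (Sum.inr (τ, j))) : Legal τ := by
  unfold dec at h
  split at h
  · simp at h
  · rename_i r
    cases hq : unbits CQ r with
    | none => rw [hq] at h; simp at h
    | some q =>
      rw [hq] at h
      simp only [Option.bind_some] at h
      split_ifs at h with h1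
      simp only [Option.some.injEq, Sum.inr.injEq, Prod.mk.injEq] at h
      obtain ⟨h2, _⟩ := h
      rw [← h2]
      rw [List.all_eq_true] at h1
      intro x hx
      have := h1 x hx
      rwa [decide_eq_true_eq] at this
  · simp at h
  · split_ifs at h
    simp at h

theorem dec_inl {u : List Bool} {b : Bool} {c w : List Bool} (h : dec u = some (Sum.inl (b, c, w))) :
    c ≠ [] ∧ w.length = c.length ∧ u = wq b c w := by
  unfold dec at h
  split at h
  · simp at h
  · rename_i r
    cases hq : unbits CQ r with
    | none => rw [hq] at h; simp at h
    | some q =>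
      rw [hq] at h
      simp only [Option.bind_some] at h
      split_ifs at h with h1
      simp at h
  · simp at h
  · rename_i b' r
    split_ifs at h with h1
    simp only [Option.some.injEq, Sum.inl.injEq, Prod.mk.injEq] at h
    obtain ⟨rfl, rfl, rfl⟩ := h
    push Not at h1
    obtain ⟨h2, h3⟩ := h1
    have h4 : r.length ≠ 0 := by
      intro h5
      exact h2 (List.length_eq_zero_iff.1 h5)
    refine ⟨?_, ?_, ?_⟩
    · intro h5
      have := congrArg List.length h5
      simp only [List.length_take, List.length_nil] at this
      omega
    · simp only [List.length_drop, List.length_take]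
      omega
    · unfold wq
      rw [List.take_append_drop]

theorem par_lt {u : List Bool} {d : Item} (h : dec u = some d) : par d < u.length := by
  rcases d with ⟨b, c, w⟩ | ⟨τ, j⟩
  · obtain ⟨_, h2, rfl⟩ := dec_inl h
    simp only [par, wq, List.length_cons, List.length_append]
    omega
  · unfold dec at h
    split at h
    · simp at h
    · rename_i r
      cases hq : unbits CQ r with
      | none => rw [hq] at h; simp at h
      | some q =>
        rw [hq] at h
        simp only [Option.bind_some] at h
        split_ifs at h with h1
        simp only [Option.some.injEq, Sum.inr.injEq, Prod.mk.injEq] at h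
        obtain ⟨h2, _⟩ := h
        have h3 := bits_of_unbits hq
        simp only [par]
        rw [← h2, List.length_cons, ← h3, bits_length]
        obtain ⟨a, q2⟩ := q
        have h4 := length_lt_sz a
        rw [sz_pair]
        simp only
        omega
    · simp at h
    · split_ifs at h
      simp at h

/-- the data which determine an oracle -/
structure Script : Type where
  /-- the names of the tuples which do not get a standard name -/
  nm : Tup → Option (List Bool)
  /-- the special names: their value, or their tuple -/
  own : List Bool → Option (Bool ⊕ Tup)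
  /-- the witnesses -/
  wit : List Bool → List Bool

section

variable (K : Oracle → List Bool → Bool) (φ : ℕ → List Bool → Bool)

/-- the truth value of a tuple -/
def tv (B : Oracle) (τ : Tup) : Bool := φ τ.2.1 (τ.2.2.map (K B))

/-- the value of a name -/
def val (s : Script) (B : Oracle) (c : List Bool) : Bool :=
  match s.own c with
  | some (Sum.inl b) => b
  | some (Sum.inr τ) => tv K φ B τ
  | none => decide (c.head? = some true)

/-- the name of a tuple -/
def name (s : Script) (B : Oracle) (τ : Tup) : List Bool :=
  match s.nm τ with
  | some c => c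
  | none => List.replicate (τ.1 + 1) (tv K φ B τ)

/-- the answer for an item -/
def body (s : Script) (B : Oracle) : Item → Bool
  | Sum.inl d => decide (d.2.2 = s.wit d.2.1) && (d.1 == val K φ s B d.2.1)
  | Sum.inr d => (name K φ s B d.1).getD d.2 false

/-- the oracle below a level -/
def lev (s : Script) : ℕ → Oracle
  | 0 => fun _ => false
  | n + 1 => fun u =>
    match dec u with
    | none => false
    | some d => if par d < n then lev s n u else if par d = n then body K φ s (lev s n) d else false

/-- the oracle -/
def orc (s : Script) : Oracle := fun u =>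
  match dec u with
  | none => false
  | some d => body K φ s (lev K φ s (par d)) d

theorem lev_none (s : Script) {u : List Bool} (h : dec u = none) (n : ℕ) : lev K φ s n u = false := by
  cases n with
  | zero => rfl
  | succ n => simp only [lev, h]

theorem lev_eq (s : Script) {u : List Bool} {d : Item} (h : dec u = some d) : ∀ m : ℕ, par d < m →
    lev K φ s m u = body K φ s (lev K φ s (par d)) d := by
  intro m
  induction m with
  | zero => intro h1; omega
  | succ m ih =>
    intro h1
    simp only [lev, h]
    by_cases h2 : par d < m
    · rw [if_pos h2]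
      exact ih h2
    · rw [if_neg h2, if_pos (by omega)]
      have : m = par d := by omega
      rw [this]

theorem lev_ge (s : Script) {u : List Bool} {d : Item} (h : dec u = some d) : ∀ m : ℕ, m ≤ par d →
    lev K φ s m u = false := by
  intro m
  cases m with
  | zero => intro _; rfl
  | succ m =>
    intro h1
    simp only [lev, h]
    rw [if_neg (by omega), if_neg (by omega)]

theorem orc_some (s : Script) {u : List Bool} {d : Item} (h : dec u = some d) :
    orc K φ s u = body K φ s (lev K φ s (par d)) d := by
  simp only [orc, h]

theorem orc_none (s : Script) {u : List Bool} (h : dec u = none) : orc K φ s u = false := by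
  simp only [orc, h]

theorem lev_low (s : Script) (n : ℕ) {u : List Bool} (hu : u.length ≤ n) : lev K φ s n u = orc K φ s u := by
  cases h : dec u with
  | none => rw [lev_none K φ s h, orc_none K φ s h]
  | some d =>
    rw [orc_some K φ s h, lev_eq K φ s h]
    have := par_lt h
    omega

/-- the property of `K` which is used -/
def Local : Prop := ∀ (A A' : Oracle) (y : List Bool), (∀ u : List Bool, u.length ≤ y.length → A u = A' u) →
  K A y = K A' y

variable {K}

theorem tv_congr (hK : Local K) {A A' : Oracle} {τ : Tup} (hτ : Legal τ)
    (h : ∀ u : List Bool, u.length ≤ τ.1 → A u = A' u) : tv K φ A τ = tv K φ A' τ := by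
  unfold tv
  congr 1
  refine List.map_congr_left fun x hx => hK A A' x fun u hu => h u (hu.trans (hτ x hx))

theorem tv_lev (hK : Local K) (s : Script) {τ : Tup} (hτ : Legal τ) :
    tv K φ (lev K φ s τ.1) τ = tv K φ (orc K φ s) τ :=
  tv_congr φ hK hτ fun _ hu => lev_low K φ s τ.1 hu

/-- the conditions on a script -/
structure Good (s : Script) : Prop where
  g1 : ∀ τ c, s.nm τ = some c → c.length = τ.1 + 1 ∧ s.own c = some (Sum.inr τ)
  g2 : ∀ c τ, s.own c = some (Sum.inr τ) → c.length = τ.1 + 1 ∧ Legal τ
  g3 : ∀ n b, s.own (List.replicate (n + 1) b) = none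
  g4 : ∀ c, (s.wit c).length = c.length

theorem val_lev (hK : Local K) {s : Script} (hs : Good s) {c : List Bool} :
    val K φ s (lev K φ s (c.length - 1)) c = val K φ s (orc K φ s) c := by
  unfold val
  cases h : s.own c with
  | none => rfl
  | some e =>
    rcases e with b | τ
    · rfl
    · simp only
      obtain ⟨h1, h2⟩ := hs.g2 c τ h
      have h3 : c.length - 1 = τ.1 := by omega
      rw [h3]
      exact tv_lev φ hK s h2

theorem name_lev (hK : Local K) (s : Script) {τ : Tup} (hτ : Legal τ) :
    name K φ s (lev K φ s τ.1) τ = name K φ s (orc K φ s) τ := by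
  unfold name
  cases h : s.nm τ with
  | none => simp only; rw [tv_lev φ hK s hτ]
  | some c => rfl

theorem orc_wq (hK : Local K) {s : Script} (hs : Good s) (b : Bool) {c w : List Bool} (hc : c ≠ [])
    (hw : w.length = c.length) : orc K φ s (wq b c w) =
      (decide (w = s.wit c) && (b == val K φ s (orc K φ s) c)) := by
  rw [orc_some K φ s (dec_wq b c w hc hw)]
  simp only [body, par]
  rw [val_lev φ hK hs]

theorem orc_cq (hK : Local K) (s : Script) (a i jj : List Bool) (l : List (List Bool))
    (h : ∀ x ∈ l, x.length ≤ a.length) : orc K φ s (cq a i jj l) =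
      (name K φ s (orc K φ s) (a.length, i.length, l)).getD jj.length false := by
  rw [orc_some K φ s (dec_cq a i jj l h)]
  simp only [body, par]
  have h1 : Legal (a.length, i.length, l) := h
  rw [name_lev φ hK s h1]

/-- the name of a tuple has the right length and value -/
theorem name_spec {s : Script} (hs : Good s) {B : Oracle} (τ : Tup) :
    (name K φ s B τ).length = τ.1 + 1 ∧ val K φ s B (name K φ s B τ) = tv K φ B τ := by
  cases h : s.nm τ with
  | none =>
    have h0 : name K φ s B τ = List.replicate (τ.1 + 1) (tv K φ B τ) := by unfold name; rw [h]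
    rw [h0]
    refine ⟨by simp, ?_⟩
    unfold val
    rw [hs.g3]
    simp only [List.replicate_succ, List.head?_cons]
    cases tv K φ B τ <;> simp
  | some c =>
    have h0 : name K φ s B τ = c := by unfold name; rw [h]
    rw [h0]
    obtain ⟨h1, h2⟩ := hs.g1 τ c h
    refine ⟨h1, ?_⟩
    unfold val
    rw [h2]

/-- the scripts agree below the level `m` -/
def Agree (s s' : Script) (m : ℕ) : Prop :=
  (∀ τ : Tup, τ.1 < m → s.nm τ = s'.nm τ) ∧
    ∀ c : List Bool, c.length - 1 < m → s.own c = s'.own c ∧ s.wit c = s'.wit c

theorem Agree.refl (s : Script) (m : ℕ) : Agree s s m := ⟨fun _ _ => rfl, fun _ _ => ⟨rfl, rfl⟩⟩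

theorem Agree.trans {s s' s'' : Script} {m : ℕ} (h : Agree s s' m) (h' : Agree s' s'' m) : Agree s s'' m :=
  ⟨fun τ hτ => (h.1 τ hτ).trans (h'.1 τ hτ), fun c hc => ⟨(h.2 c hc).1.trans (h'.2 c hc).1,
    (h.2 c hc).2.trans (h'.2 c hc).2⟩⟩

theorem Agree.symm {s s' : Script} {m : ℕ} (h : Agree s s' m) : Agree s' s m :=
  ⟨fun τ hτ => (h.1 τ hτ).symm, fun c hc => ⟨(h.2 c hc).1.symm, (h.2 c hc).2.symm⟩⟩

theorem Agree.mono {s s' : Script} {m m' : ℕ} (h : Agree s s' m) (hm : m' ≤ m) : Agree s s' m' :=
  ⟨fun τ hτ => h.1 τ (by omega), fun c hc => h.2 c (by omega)⟩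

theorem body_agree {s s' : Script} {m : ℕ} (h : Agree s s' m) (B : Oracle) {d : Item} (hd : par d < m) :
    body K φ s B d = body K φ s' B d := by
  rcases d with ⟨b, c, w⟩ | ⟨τ, j⟩
  · simp only [par] at hd
    simp only [body, val]
    rw [(h.2 c hd).1, (h.2 c hd).2]
  · simp only [par] at hd
    simp only [body, name]
    rw [h.1 τ hd]

theorem lev_agree {s s' : Script} {m : ℕ} (h : Agree s s' m) : ∀ n : ℕ, n ≤ m → lev K φ s n = lev K φ s' n := by
  intro n
  induction n with
  | zero => intro _; rfl
  | succ n ih =>
    intro hn
    have ih' := ih (by omega)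
    funext u
    cases hd : dec u with
    | none => simp only [lev, hd]
    | some d =>
      simp only [lev, hd]
      rw [ih']
      by_cases h1 : par d < n
      · rw [if_pos h1, if_pos h1]
      · rw [if_neg h1, if_neg h1]
        by_cases h2 : par d = n
        · rw [if_pos h2, if_pos h2]
          exact body_agree φ h _ (by omega)
        · rw [if_neg h2, if_neg h2]

theorem orc_agree {s s' : Script} {m : ℕ} (h : Agree s s' m) {u : List Bool}
    (hu : ∀ d, dec u = some d → par d < m) : orc K φ s u = orc K φ s' u := by
  cases hd : dec u with
  | none => rw [orc_none K φ s hd, orc_none K φ s' hd]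
  | some d =>
    have h1 := hu d hd
    rw [orc_some K φ s hd, orc_some K φ s' hd, lev_agree φ h _ h1.le]
    exact body_agree φ h _ h1

end

end Pool.Agent.W2helper58.BR
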