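import Pool.Agent.W2helper58.BR.Univ
import Pool.Agent.H579R2.Spt.Main2

/-!
# The distillation
-/

set_option autoImplicit false

namespace Pool.Agent.W2helper58.BR

open Pool.Agent.NPC Pool.Agent.H620R2.Gauge Pool.Agent.H622R2 Pool.Agent.H579R2.Spt

/-- a longest element -/
def longest (l : List (List Bool)) : List Bool := l.foldl (fun a x => if a.length + 1 ≤ x.length then x else a) []

theorem longest_aux (l : List (List Bool)) : ∀ a : List Bool,
    (∀ x ∈ l, x.length ≤ (l.foldl (fun a x => if a.length + 1 ≤ x.length then x else a) a).length) ∧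
    a.length ≤ (l.foldl (fun a x => if a.length + 1 ≤ x.length then x else a) a).length ∧
    (l.foldl (fun a x => if a.length + 1 ≤ x.length then x else a) a = a ∨
      l.foldl (fun a x => if a.length + 1 ≤ x.length then x else a) a ∈ l) := by
  induction l with
  | nil => intro a; simp
  | cons x l ih =>
    intro a
    rw [List.foldl_cons]
    obtain ⟨h1, h2, h3⟩ := ih (if a.length + 1 ≤ x.length then x else a)
    obtain ⟨z, hz⟩ : ∃ z, z = l.foldl (fun a x => if a.length + 1 ≤ x.length then x else a)
      (if a.length + 1 ≤ x.length then x else a) := ⟨_, rfl⟩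
    rw [← hz] at h1 h2 h3 ⊢
    split_ifs at h2 h3 with h4
    · refine ⟨?_, by omega, ?_⟩
      · intro y hy
        rcases List.mem_cons.1 hy with rfl | hy
        · exact h2
        · exact h1 y hy
      · rcases h3 with h3 | h3
        · exact Or.inr (by rw [h3]; exact List.mem_cons_self)
        · exact Or.inr (List.mem_cons_of_mem _ h3)
    · refine ⟨?_, h2, ?_⟩
      · intro y hy
        rcases List.mem_cons.1 hy with rfl | hy
        · omega
        · exact h1 y hy
      · rcases h3 with h3 | h3
        · exact Or.inl h3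
        · exact Or.inr (List.mem_cons_of_mem _ h3)

theorem le_longest {l : List (List Bool)} {x : List Bool} (hx : x ∈ l) : x.length ≤ (longest l).length :=
  (longest_aux l []).1 x hx

theorem longest_le {l : List (List Bool)} {n : ℕ} (h : ∀ x ∈ l, x.length ≤ n) : (longest l).length ≤ n := by
  rcases (longest_aux l []).2.2 with h1 | h1
  · unfold longest
    rw [h1]
    simp
  · exact h _ h1

theorem longest_poly {α : Type} [TEnc α] {l : α → List (List Bool)} (hl : Poly l) : Poly (fun a => longest (l a)) := by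
  unfold longest
  obtain ⟨q, hq⟩ := hl.sz_le
  refine NPC.Poly.foldl (l := l) (s := fun _ => []) (F := fun _ a x => if a.length + 1 ≤ x.length then x else a) hl
    (NPC.Poly.const _) ?_ (q + 1) ?_
  · have h1 : Poly (fun p : α × List Bool × List Bool => p.2.1) := NPC.Poly.fst (NPC.Poly.snd NPC.Poly.id)
    have h2 : Poly (fun p : α × List Bool × List Bool => p.2.2) := NPC.Poly.snd (NPC.Poly.snd NPC.Poly.id)
    exact NPC.Poly.ite (NPC.Poly.decide_le (NPC.Poly.succ (NPC.Poly.length h1)) (NPC.Poly.length h2)) h2 h1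
  · intro a k _
    rcases (longest_aux ((l a).take k) []).2.2 with h1 | h1
    · rw [h1]
      simp
    · have h2 := sz_le_of_mem (List.mem_of_mem_take h1)
      have h3 := hq a
      simp only [Polynomial.eval_add, Polynomial.eval_one]
      omega

theorem range_map_getD (c : List Bool) (n : ℕ) (h : c.length = n) :
    (List.range n).map (fun j => c.getD j false) = c := by
  apply List.ext_getElem
  · simp [h]
  · intro i h1 h2
    simp only [List.getElem_map, List.getElem_range]
    rw [List.getD_eq_getElem?_getD, List.getElem?_eq_getElem h2]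
    rfl

section

variable (φ : ℕ → List Bool → Bool)

/-- the name of the tuple of the instances `r x` -/
noncomputable def nmf (s : Script) (i : ℕ) (l : List (List Bool)) : List Bool :=
  name UK φ s (orc UK φ s) ((longest l).length, i, l)

theorem nmf_isFP {s : Script} (hs : Good s) (i : ℕ) {L : List Bool → List (List Bool)} (hL : Poly L) :
    IsFP (orc UK φ s) (fun y => nmf φ s i (L y)) := by
  obtain ⟨Q, hQ⟩ : ∃ Q : List Bool → List (List Bool), Q = fun y => (List.range ((longest (L y)).length + 1)).map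
    (fun j => cq (longest (L y)) (List.replicate i true) ((true :: longest (L y)).take j) (L y)) := ⟨_, rfl⟩
  have hQp : Poly Q := by
    rw [hQ]
    have h1 := longest_poly hL
    refine NPC.Poly.map (l := fun y => List.range ((longest (L y)).length + 1)) (F := fun y j =>
      cq (longest (L y)) (List.replicate i true) ((true :: longest (L y)).take j) (L y))
      (((UPoly.length h1).add (UPoly.const 1)).range) ?_
    have h2 : Poly (fun p : List Bool × ℕ => longest (L p.1)) := h1.comp (NPC.Poly.fst NPC.Poly.id)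
    have h3 : Poly (fun p : List Bool × ℕ => L p.1) := hL.comp (NPC.Poly.fst NPC.Poly.id)
    unfold cq
    refine NPC.Poly.cons (NPC.Poly.const _) (bits_poly.comp (NPC.Poly.pair h2 (NPC.Poly.pair (NPC.Poly.const _)
      (NPC.Poly.pair (take_poly' (NPC.Poly.cons (NPC.Poly.const _) h2) (NPC.Poly.snd NPC.Poly.id)) h3))))
  have h := IsFP.tt (A := orc UK φ s) (Q := Q) (H := fun q => q.2) hQp (NPC.Poly.snd NPC.Poly.id)
  have he : (fun y => nmf φ s i (L y)) = fun y => (Q y).map (orc UK φ s) := by
    funext y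
    rw [hQ]
    simp only [List.map_map]
    have h1 : ∀ j ∈ List.range ((longest (L y)).length + 1), (orc UK φ s ∘ fun j =>
        cq (longest (L y)) (List.replicate i true) ((true :: longest (L y)).take j) (L y)) j =
        (nmf φ s i (L y)).getD j false := by
      intro j hj
      rw [List.mem_range] at hj
      rw [Function.comp_apply, orc_cq φ UK_local s _ _ _ _ (fun x hx => le_longest hx), List.length_replicate,
        List.length_take, List.length_cons]
      have h2 : min j ((longest (L y)).length + 1) = j := by omega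
      rw [h2]
      rfl
    rw [List.map_congr_left h1]
    exact (range_map_getD _ _ (name_spec φ hs _).1).symm
  rw [he]
  exact h

theorem nmf_length {s : Script} (hs : Good s) (i : ℕ) {l : List (List Bool)} {n : ℕ} (h : ∀ x ∈ l, x.length ≤ n) :
    (nmf φ s i l).length ≤ n + 1 := by
  unfold nmf
  rw [(name_spec φ hs _).1]
  have := longest_le h
  simp only
  omega

theorem nmf_ne_nil {s : Script} (hs : Good s) (i : ℕ) (l : List (List Bool)) : nmf φ s i l ≠ [] := by
  intro h
  have h1 := congrArg List.length h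
  unfold nmf at h1
  rw [(name_spec φ hs _).1] at h1
  simp at h1

theorem nmf_val {s : Script} (hs : Good s) (i : ℕ) (l : List (List Bool)) :
    val UK φ s (orc UK φ s) (nmf φ s i l) = φ i (l.map (UK (orc UK φ s))) := by
  unfold nmf
  rw [(name_spec φ hs _).2]
  rfl

theorem nmf_mem {s : Script} (hs : Good s) (i : ℕ) (l : List (List Bool)) :
    nmf φ s i l ∈ Tset UK φ s ↔ φ i (l.map (UK (orc UK φ s))) = true := by
  unfold Tset
  rw [Set.mem_ofPred_eq, nmf_val φ hs]
  constructor
  · exact fun h => h.2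
  · exact fun h => ⟨nmf_ne_nil φ hs i l, h⟩

/-- **Distillation.** -/
theorem dist {s : Script} (hs : Good s) (i : ℕ) {R : Set (List Bool)} (hR : Complete (orc UK φ s) R) :
    ∃ D : List (List Bool) → List Bool, (∃ F : List Bool → List Bool, IsFP (orc UK φ s) F ∧ ∀ l, F (bits l) = D l) ∧
      (∃ q : Polynomial ℕ, ∀ (n : ℕ) (l : List (List Bool)), (∀ x ∈ l, x.length ≤ n) → (D l).length ≤ q.eval n) ∧
      ∀ (l : List (List Bool)) (v : List Bool), List.Forall₂ (fun x b => x ∈ R ↔ b = true) l v →
        (D l ∈ R ↔ φ i v = true) := by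
  obtain ⟨r, hr, hrR⟩ := exists_code hR.1
  obtain ⟨g, hg, hgR⟩ := hR.2 _ (T_up φ s hs true).isNP
  obtain ⟨L, hL⟩ : ∃ L : List Bool → List (List Bool), L = fun y =>
    ((unbits (List (List Bool)) y).getD []).map r := ⟨_, rfl⟩
  have hLp : Poly L := by
    rw [hL]
    refine NPC.Poly.map (F := fun _ x => r x) (NPC.Poly.optGetD poly_unbits (NPC.Poly.const _)) ?_
    exact hr.comp (NPC.Poly.snd NPC.Poly.id)
  have hLb : ∀ l : List (List Bool), L (bits l) = l.map r := by
    intro l
    rw [hL]
    simp only [unbits_bits, Option.getD_some]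
  refine ⟨fun l => g (nmf φ s i (l.map r)), ⟨fun y => g (nmf φ s i (L y)), hg.comp (nmf_isFP φ hs i hLp),
    fun l => by simp only [hLb]⟩, ?_, ?_⟩
  · obtain ⟨M, hM⟩ := hg
    obtain ⟨b, hb⟩ := M.out_length
    obtain ⟨q, hq⟩ := hr.sz_le
    refine ⟨b.comp (q.comp (Polynomial.C 4 * Polynomial.X + 1) + 1), fun n l hl => ?_⟩
    have h1 : ∀ y ∈ l.map r, y.length ≤ (q.comp (Polynomial.C 4 * Polynomial.X + 1)).eval n := by
      intro y hy
      obtain ⟨x, hx, rfl⟩ := List.mem_map.1 hy
      have h2 := length_lt_sz (r x)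
      have h3 := hq x
      have h4 := sz_listBool_le x
      have h5 := hl x hx
      rw [Polynomial.eval_comp]
      refine (h2.le.trans h3).trans (eval_mono q ?_)
      simp only [Polynomial.eval_add, Polynomial.eval_mul, Polynomial.eval_C, Polynomial.eval_X, Polynomial.eval_one]
      omega
    have h2 := nmf_length φ hs i h1
    refine (hb _ _ _ (hM _)).trans ?_
    rw [Polynomial.eval_comp]
    refine eval_mono b ?_
    rw [Polynomial.eval_add, Polynomial.eval_one]
    exact h2
  · intro l v hv
    have h1 : (l.map r).map (UK (orc UK φ s)) = v := by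
      rw [List.map_map]
      have h2 : List.Forall₂ (fun x b => UK (orc UK φ s) (r x) = b) l v := by
        refine hv.imp fun x b h => ?_
        rw [Bool.eq_iff_iff, ← hrR x]
        exact h
      clear hv
      induction h2 with
      | nil => rfl
      | cons h _ ih => rw [List.map_cons, ih, ← h]; rfl
    change (g (nmf φ s i (l.map r)) ∈ R ↔ _)
    rw [← hgR]
    have h3 := nmf_mem φ hs i (l.map r)
    rw [h1] at h3
    exact h3

end

theorem IsUP.of_red {A : Oracle} {L L' : Set (List Bool)} (h : Red A L L') (h' : IsUP A L') : IsUP A L := by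
  obtain ⟨f, hf, hfL⟩ := h
  obtain ⟨V, p, hV, hVL, hVu⟩ := h'
  have hf' := hf
  obtain ⟨M, hM⟩ := hf'
  obtain ⟨b, hb⟩ := M.out_length
  have hy1 : Poly (fun y : List Bool => (unpair y).1) := Poly.fst poly_unpair
  have hy2 : Poly (fun y : List Bool => (unpair y).2) := Poly.snd poly_unpair
  have h1 : IsFP A (fun y => f (unpair y).2) := hf.comp (IsFP.of_poly hy2)
  have h2 := IsFP.seq (A := A) (φ := fun q => pairBits (unpair q.1).1 q.2)
    (ψ := fun q => if (unpair q.1).1.length ≤ p.eval q.2.1.length then q.2.2 else []) h1 hV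
    (H622R2.poly_pairBits (hy1.comp (NPC.Poly.fst NPC.Poly.id)) (NPC.Poly.snd NPC.Poly.id))
    (NPC.Poly.ite (NPC.Poly.decide_le (NPC.Poly.length (hy1.comp (NPC.Poly.fst NPC.Poly.id)))
      ((UPoly.length (NPC.Poly.fst (NPC.Poly.snd NPC.Poly.id))).eval p).toPoly)
      (NPC.Poly.snd (NPC.Poly.snd NPC.Poly.id)) (NPC.Poly.const _))
  have key : ∀ w x : List Bool, ((if (unpair (pairBits w x)).1.length ≤ p.eval (f (unpair (pairBits w x)).2).length then
      V (pairBits (unpair (pairBits w x)).1 (f (unpair (pairBits w x)).2)) else []) = [true] ↔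
      w.length ≤ p.eval (f x).length ∧ V (pairBits w (f x)) = [true]) := by
    intro w x
    simp only [unpair_pairBits]
    split_ifs with h3
    · simp [h3]
    · simp [h3]
  refine ⟨_, p.comp b, h2, ?_, ?_⟩
  · intro x
    rw [hfL x, hVL (f x)]
    constructor
    · rintro ⟨w, h3, h4⟩
      refine ⟨w, ?_, (key w x).2 ⟨h3, h4⟩⟩
      rw [Polynomial.eval_comp]
      exact h3.trans (eval_mono p (hb _ _ _ (hM x)))
    · rintro ⟨w, _, h4⟩
      exact ⟨w, (key w x).1 h4⟩
  · intro x w w' _ h4 _ h6
    obtain ⟨k1, k2⟩ := (key w x).1 h4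
    obtain ⟨k3, k4⟩ := (key w' x).1 h6
    exact hVu (f x) w w' k1 k2 k3 k4

/-- **The oracle.** -/
theorem main (φ : ℕ → List Bool → Bool) (i0 : ℕ) (hi0 : ∀ b : Bool, φ i0 [b] = b) : ∃ A : Oracle,
    (∃ L, IsUP A L ∧ IsUP A Lᶜ ∧ ¬ IsP A L) ∧ (∀ L, IsNP A L → IsUP A L ∧ IsUP A Lᶜ) ∧ (∃ R, Complete A R) ∧
    ∀ (i : ℕ) (R : Set (List Bool)), Complete A R →
      ∃ D : List (List Bool) → List Bool, (∃ F : List Bool → List Bool, IsFP A F ∧ ∀ l, F (bits l) = D l) ∧
      (∃ q : Polynomial ℕ, ∀ (n : ℕ) (l : List (List Bool)), (∀ x ∈ l, x.length ≤ n) → (D l).length ≤ q.eval n) ∧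
      ∀ (l : List (List Bool)) (v : List Bool), List.Forall₂ (fun x b => x ∈ R ↔ b = true) l v →
        (D l ∈ R ↔ φ i v = true) := by
  obtain ⟨V, hV⟩ := exists_surjective_nat Alg
  obtain ⟨s, hs, hk⟩ := limit φ UK_local V
  have hT0 : IsUP (orc UK φ s) (Tset UK φ s)ᶜ := by
    refine IsUP.of_red ⟨fun c => if c = [] then [false] else c, IsFP.of_poly ?_, ?_⟩ (T_up φ s hs false)
    · exact NPC.Poly.ite (NPC.Poly.decide_eq NPC.Poly.id (NPC.Poly.const _)) (NPC.Poly.const _) NPC.Poly.id
    · intro c
      unfold Tset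
      rw [Set.mem_compl_iff, Set.mem_ofPred_eq, Set.mem_ofPred_eq]
      change _ ↔ (if c = [] then [false] else c) ≠ [] ∧
        val UK φ s (orc UK φ s) (if c = [] then [false] else c) = false
      by_cases hc : c = []
      · rw [if_pos hc]
        have h1 : val UK φ s (orc UK φ s) [false] = false := by
          unfold val
          have h2 := hs.g3 0 false
          simp only [Nat.zero_add, List.replicate_one] at h2
          rw [h2]
          simp
        rw [h1]
        simp [hc]
      · rw [if_neg hc]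
        simp [hc]
  have hred : ∀ L, IsNP (orc UK φ s) L → Red (orc UK φ s) L (Tset UK φ s) := by
    intro L hL
    obtain ⟨r, hr, hrL⟩ := exists_code hL
    have h1 : Poly (fun x : List Bool => [r x]) := NPC.Poly.cons hr (NPC.Poly.const _)
    have h2 := nmf_isFP φ hs i0 h1
    have h3 : ∀ x, x ∈ L ↔ nmf φ s i0 [r x] ∈ Tset UK φ s := by
      intro x
      rw [nmf_mem φ hs, List.map_singleton, hi0]
      exact hrL x
    exact ⟨_, h2, h3⟩
  refine ⟨orc UK φ s, ⟨Tset UK φ s, T_up φ s hs true, hT0, ?_⟩, ?_, ⟨Tset UK φ s, (T_up φ s hs true).isNP, hred⟩,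
    fun i R hR => dist φ hs i hR⟩
  · rintro ⟨W, ⟨M, hM⟩, hW⟩
    obtain ⟨k, hk'⟩ := hV M
    obtain ⟨c, hc⟩ := hk k
    apply hc
    rw [hk', hM, hW c]
    simp
  · intro L hL
    obtain ⟨f, hf, hfL⟩ := hred L hL
    refine ⟨IsUP.of_red ⟨f, hf, hfL⟩ (T_up φ s hs true), IsUP.of_red ⟨f, hf, fun x => ?_⟩ hT0⟩
    rw [Set.mem_compl_iff, Set.mem_compl_iff, hfL x]

end Pool.Agent.W2helper58.BR
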