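import Pool.Agent.W2helper58.BR.Defs
import Pool.Agent.H579R2.Spt.VV

/-!
# An algorithm does not find the value of a special name
-/

set_option autoImplicit false

namespace Pool.Agent.W2helper58.BR

open Pool.Agent.NPC Pool.Agent.H620R2.Gauge Pool.Agent.H579R2.Spt

theorem poly_lt_two_pow (P : Polynomial ℕ) : ∀ C : ℕ, ∃ c₀, ∀ m ≥ c₀, C * P.eval m ≤ 2 ^ m := by
  induction P using Polynomial.induction_on' with
  | add p q hp hq =>
    intro C
    obtain ⟨c1, h1⟩ := hp (2 * C)
    obtain ⟨c2, h2⟩ := hq (2 * C)
    refine ⟨max c1 c2, fun m hm => ?_⟩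
    have h3 := h1 m (le_trans (le_max_left _ _) hm)
    have h4 := h2 m (le_trans (le_max_right _ _) hm)
    rw [Polynomial.eval_add]
    nlinarith
  | monomial k a =>
    intro C
    have h := tendsto_pow_const_div_const_pow_of_one_lt k (show (1 : ℝ) < 2 by norm_num)
    have h2 := h.eventually (gt_mem_nhds (show (0 : ℝ) < 1 / (C * a + 1) by positivity))
    obtain ⟨c₀, hc⟩ := Filter.eventually_atTop.1 h2
    refine ⟨c₀, fun m hm => ?_⟩
    have h3 := hc m hm
    rw [div_lt_div_iff₀ (by positivity) (by positivity), one_mul] at h3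
    rw [Polynomial.eval_monomial]
    have h4 : (C : ℝ) * (a * (m : ℝ) ^ k) ≤ 2 ^ m := by
      have : 0 ≤ (m : ℝ) ^ k := by positivity
      nlinarith
    exact_mod_cast h4

theorem exists_new (k : ℕ) (F : List (List Bool)) (h : F.length < 2 ^ k) :
    ∃ c : List Bool, c.length = k ∧ c ∉ F := by
  classical
  by_contra hno
  push Not at hno
  have h1 : BL k ⊆ F.toFinset := by
    intro c hc
    rw [List.mem_toFinset]
    exact hno c (mem_BL.1 hc)
  have h2 := Finset.card_le_card h1
  have h3 : (BL k).card = 2 ^ k := by exact_mod_cast card_BL k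
  have h4 := List.toFinset_card_le F
  omega

/-- the names which have been given are legal -/
structure Inv (n : ℕ) (c0 : List Bool) (E : List (Tup × List Bool)) : Prop where
  i1 : ∀ e ∈ E, Legal e.1 ∧ n ≤ e.1.1 ∧ e.2.length = e.1.1 + 1 ∧ e.2 ≠ c0 ∧
    ∀ (k : ℕ) (b : Bool), e.2 ≠ List.replicate (k + 1) b
  i2 : ∀ e ∈ E, ∀ e' ∈ E, (e.1 = e'.1 ∨ e.2 = e'.2) → e = e'

/-- the script extends the present state -/
structure Compat (s : Script) (n : ℕ) (E : List (Tup × List Bool)) (Bl : List (List Bool × List Bool))
    (s' : Script) : Prop where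
  good : Good s'
  agr : Agree s s' n
  nm : ∀ e ∈ E, s'.nm e.1 = some e.2
  wit : ∀ e ∈ Bl, s'.wit e.1 ≠ e.2

section

variable {K : Oracle → List Bool → Bool} (φ : ℕ → List Bool → Bool)

theorem ask (hK : Local K) (s : Script) (n : ℕ) (c0 q : List Bool)
    (E : List (Tup × List Bool)) (Bl : List (List Bool × List Bool)) (hE : Inv n c0 E)
    (hl : E.length + 3 < 2 ^ (n + 1)) (hBl : ∀ e ∈ Bl, n + 1 ≤ e.1.length) :
    ∃ (E' : List (Tup × List Bool)) (Bl' : List (List Bool × List Bool)) (ans : Bool), Inv n c0 E' ∧
      (∀ e ∈ Bl', n + 1 ≤ e.1.length) ∧ E'.length ≤ E.length + 1 ∧ Bl'.length ≤ Bl.length + 1 ∧ E ⊆ E' ∧ Bl ⊆ Bl' ∧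
      ∀ s' : Script, Compat s n E' Bl' s' → orc K φ s' q = ans := by
  classical
  cases hd : dec q with
  | none =>
    exact ⟨E, Bl, false, hE, hBl, by omega, by omega, List.Subset.refl _, List.Subset.refl _,
      fun s' _ => orc_none K φ s' hd⟩
  | some d =>
    by_cases hp : par d < n
    · refine ⟨E, Bl, orc K φ s q, hE, hBl, by omega, by omega, List.Subset.refl _, List.Subset.refl _,
        fun s' hs' => ?_⟩
      refine (orc_agree φ hs'.agr ?_).symm
      intro d' hd'
      rw [hd] at hd'
      simp only [Option.some.injEq] at hd'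
      rw [← hd']
      exact hp
    · push Not at hp
      rcases d with ⟨b, c, w⟩ | ⟨τ, j⟩
      · obtain ⟨h1, h2, h3⟩ := dec_inl hd
        have h4 : n + 1 ≤ c.length := by
          simp only [par] at hp
          have : c.length ≠ 0 := fun h => h1 (List.length_eq_zero_iff.1 h)
          omega
        refine ⟨E, (c, w) :: Bl, false, hE, ?_, by omega, by simp, List.Subset.refl _,
          List.subset_cons_self _ _, ?_⟩
        · intro e he
          rcases List.mem_cons.1 he with rfl | he
          · exact h4
          · exact hBl e he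
        · intro s' hs'
          rw [h3, orc_wq φ hK hs'.good b h1 h2]
          have h5 := hs'.wit (c, w) List.mem_cons_self
          simp only at h5
          rw [decide_eq_false (fun h => h5 h.symm), Bool.false_and]
      · simp only [par] at hp
        have hleg := dec_inr hd
        by_cases hex : ∃ c, (τ, c) ∈ E
        · obtain ⟨c, hc⟩ := hex
          refine ⟨E, Bl, c.getD j false, hE, hBl, by omega, by omega, List.Subset.refl _, List.Subset.refl _,
            fun s' hs' => ?_⟩
          rw [orc_some K φ s' hd]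
          simp only [body, name]
          have := hs'.nm (τ, c) hc
          simp only at this
          rw [this]
        · obtain ⟨c, hc1, hc2⟩ := exists_new (τ.1 + 1) (c0 :: List.replicate (τ.1 + 1) true ::
            List.replicate (τ.1 + 1) false :: E.map Prod.snd) (by
              have h1 : 2 ^ (n + 1) ≤ 2 ^ (τ.1 + 1) := Nat.pow_le_pow_right (by norm_num) (by omega)
              simp only [List.length_cons, List.length_map]
              omega)
          simp only [List.mem_cons, not_or, List.mem_map, not_exists, not_and] at hc2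
          obtain ⟨k1, k2, k3, k4⟩ := hc2
          refine ⟨(τ, c) :: E, Bl, c.getD j false, ⟨?_, ?_⟩, hBl, by simp, by omega,
            List.subset_cons_self _ _, List.Subset.refl _, ?_⟩
          · intro e he
            rcases List.mem_cons.1 he with rfl | he
            · refine ⟨hleg, hp, hc1, k1, ?_⟩
              intro k b hb
              have h1 := congrArg List.length hb
              simp only [List.length_replicate] at h1
              rw [hc1] at h1
              have h2 : k + 1 = τ.1 + 1 := h1.symm
              rw [h2] at hb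
              cases b
              · exact k3 hb
              · exact k2 hb
            · exact hE.i1 e he
          · intro e he e' he' hee
            rcases List.mem_cons.1 he with rfl | he
            · rcases List.mem_cons.1 he' with rfl | he'
              · rfl
              · rcases hee with h | h
                · exact absurd ⟨e'.2, by rw [show (τ, e'.2) = e' from by
                    obtain ⟨x, y⟩ := e'; simp only at h ⊢; rw [h]]; exact he'⟩ hex
                · exact absurd h.symm (k4 e' he')
            · rcases List.mem_cons.1 he' with rfl | he'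
              · rcases hee with h | h
                · exact absurd ⟨e.2, by rw [show (τ, e.2) = e from by
                    obtain ⟨x, y⟩ := e; simp only at h ⊢; rw [h]]; exact he⟩ hex
                · exact absurd h (k4 e he)
              · exact hE.i2 e he e' he' hee
          · intro s' hs'
            rw [orc_some K φ s' hd]
            simp only [body, name]
            have := hs'.nm (τ, c) List.mem_cons_self
            simp only at this
            rw [this]

theorem Compat.mono {s : Script} {n : ℕ} {E E' : List (Tup × List Bool)} {Bl Bl' : List (List Bool × List Bool)}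
    {s' : Script} (h : Compat s n E' Bl' s') (hE : E ⊆ E') (hB : Bl ⊆ Bl') : Compat s n E Bl s' :=
  ⟨h.good, h.agr, fun e he => h.nm e (hE he), fun e he => h.wit e (hB he)⟩

theorem game (hK : Local K) (s : Script) (n : ℕ) (c0 : List Bool) (V : Alg) :
    ∀ (r : ℕ) (a : List Bool) (E : List (Tup × List Bool)) (Bl : List (List Bool × List Bool)), Inv n c0 E →
      E.length + r + 3 < 2 ^ (n + 1) → (∀ e ∈ Bl, n + 1 ≤ e.1.length) →
    ∃ (E' : List (Tup × List Bool)) (Bl' : List (List Bool × List Bool)) (out : Option (List Bool)), Inv n c0 E' ∧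
      (∀ e ∈ Bl', n + 1 ≤ e.1.length) ∧ Bl'.length ≤ Bl.length + r ∧ E ⊆ E' ∧ Bl ⊆ Bl' ∧
      ∀ s' : Script, Compat s n E' Bl' s' → V.run (orc K φ s') c0 r a = out := by
  intro r
  induction r with
  | zero =>
    intro a E Bl hE _ hBl
    exact ⟨E, Bl, none, hE, hBl, le_rfl, List.Subset.refl _, List.Subset.refl _, fun s' _ => rfl⟩
  | succ r ih =>
    intro a E Bl hE hl hBl
    rcases hq : V.D (pairBits c0 a) with _ | ⟨b, q⟩
    · exact ⟨E, Bl, some [], hE, hBl, by omega, List.Subset.refl _, List.Subset.refl _,
        fun s' _ => by simp only [Alg.run, hq]⟩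
    · cases b with
      | true =>
        exact ⟨E, Bl, some q, hE, hBl, by omega, List.Subset.refl _, List.Subset.refl _,
          fun s' _ => by simp only [Alg.run, hq]⟩
      | false =>
        obtain ⟨E1, Bl1, ans, h1, h2, h3, h4, h5, h6, h7⟩ := ask φ hK s n c0 q E Bl hE (by omega) hBl
        obtain ⟨E2, Bl2, out, k1, k2, k3, k4, k5, k6⟩ := ih (a ++ [ans]) E1 Bl1 h1 (by omega) h2
        refine ⟨E2, Bl2, out, k1, k2, by omega, List.Subset.trans h5 k4, List.Subset.trans h6 k5, ?_⟩
        intro s' hs'
        simp only [Alg.run, hq]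
        rw [h7 s' (hs'.mono k4 k5)]
        exact k6 s' hs'

/-- the value of `c` for the oracle of the script -/
def Tset (K : Oracle → List Bool → Bool) (φ : ℕ → List Bool → Bool) (s : Script) : Set (List Bool) :=
  {c | c ≠ [] ∧ val K φ s (orc K φ s) c = true}

/-- **One stage.** -/
theorem stage (hK : Local K) (s : Script) (hs : Good s) (m : ℕ) (V : Alg) :
    ∃ (s' : Script) (m' : ℕ), Good s' ∧ Agree s s' m ∧ m < m' ∧ ∀ s'' : Script, Good s'' → Agree s' s'' m' →
      ∃ c : List Bool, ¬ (c ∈ Tset K φ s'' ↔ V.out (orc K φ s'') c = some [true]) := by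
  classical
  obtain ⟨n, hnm, hn1, hn⟩ : ∃ n, m ≤ n ∧ 1 ≤ n ∧ V.p.eval (n + 1) + 3 < 2 ^ (n + 1) := by
    obtain ⟨k, hk⟩ := poly_lt_two_pow (V.p + 4) 1
    refine ⟨max (max m 1) k, (le_max_left _ _).trans (le_max_left _ _), (le_max_right _ _).trans (le_max_left _ _), ?_⟩
    have h := hk (max (max m 1) k + 1) ((le_max_right _ _).trans (Nat.le_succ _))
    have h2 : (4 : Polynomial ℕ).eval (max (max m 1) k + 1) = 4 := by simp
    rw [Polynomial.eval_add, h2] at h
    omega
  obtain ⟨c0, hc0⟩ : ∃ c0, c0 = true :: List.replicate n false := ⟨_, rfl⟩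
  have hc0l : c0.length = n + 1 := by rw [hc0]; simp
  have hc0r : ∀ (k : ℕ) (b : Bool), c0 ≠ List.replicate (k + 1) b := by
    intro k b h
    have h1 := congrArg List.length h
    rw [hc0l, List.length_replicate] at h1
    obtain ⟨n', rfl⟩ : ∃ n', n = n' + 1 := ⟨n - 1, by omega⟩
    have h2 : k = n' + 1 := by omega
    rw [hc0, h2, List.replicate_succ, List.replicate_succ, List.replicate_succ] at h
    simp only [List.cons.injEq] at h
    obtain ⟨rfl, h3, _⟩ := h
    exact absurd h3 (by simp)
  obtain ⟨E, Bl, out, h1, h2, h3, _, _, h4⟩ := game φ hK s n c0 V (V.p.eval (n + 1)) [] [] []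
    ⟨by simp, by simp⟩ (by simpa using hn) (by simp)
  -- the new script
  have hwit : ∀ c : List Bool, ∃ w : List Bool, w.length = c.length ∧ (n + 1 ≤ c.length → (c, w) ∉ Bl) := by
    intro c
    by_cases hc : n + 1 ≤ c.length
    · obtain ⟨w, hw1, hw2⟩ := exists_new c.length (Bl.map Prod.snd) (by
        have h5 : 2 ^ (n + 1) ≤ 2 ^ c.length := Nat.pow_le_pow_right (by norm_num) hc
        simp only [List.length_map]
        simp only [List.length_nil, Nat.zero_add] at h3
        omega)
      refine ⟨w, hw1, fun _ h5 => hw2 (List.mem_map.2 ⟨_, h5, rfl⟩)⟩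
    · exact ⟨c, rfl, fun h => absurd h hc⟩
  choose wt hwt1 hwt2 using hwit
  obtain ⟨s', hs'⟩ : ∃ s' : Script, s' = ⟨fun τ => if τ.1 < n then s.nm τ else
      if h : ∃ c, (τ, c) ∈ E then some h.choose else none,
    fun c => if c.length - 1 < n then s.own c else
      if c = c0 then some (Sum.inl (decide (out ≠ some [true]))) else
        if h : ∃ τ, (τ, c) ∈ E then some (Sum.inr h.choose) else none,
    fun c => if c.length - 1 < n then s.wit c else wt c⟩ := ⟨_, rfl⟩
  have hnmE : ∀ e ∈ E, s'.nm e.1 = some e.2 := by
    intro e he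
    have h5 := (h1.i1 e he).2.1
    have h6 : ∃ c, (e.1, c) ∈ E := ⟨e.2, he⟩
    rw [hs']
    simp only
    rw [if_neg (by omega), dif_pos h6]
    have h7 := h1.i2 _ h6.choose_spec e he (Or.inl rfl)
    rw [Option.some.injEq]
    exact congrArg Prod.snd h7
  have hownE : ∀ e ∈ E, s'.own e.2 = some (Sum.inr e.1) := by
    intro e he
    obtain ⟨_, h5, h50, h51, _⟩ := h1.i1 e he
    have h6 : ∃ τ, (τ, e.2) ∈ E := ⟨e.1, he⟩
    rw [hs']
    simp only
    rw [if_neg (by omega), if_neg h51, dif_pos h6]
    have h7 := h1.i2 _ h6.choose_spec e he (Or.inr rfl)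
    rw [Option.some.injEq, Sum.inr.injEq]
    exact congrArg Prod.fst h7
  have hgood : Good s' := by
    refine ⟨?_, ?_, ?_, ?_⟩
    · intro τ c h
      by_cases h5 : τ.1 < n
      · rw [hs'] at h ⊢
        simp only at h ⊢
        rw [if_pos h5] at h
        obtain ⟨h6, h7⟩ := hs.g1 τ c h
        rw [if_pos (by omega)]
        exact ⟨h6, h7⟩
      · have h6 : (τ, c) ∈ E := by
          rw [hs'] at h
          simp only at h
          rw [if_neg h5] at h
          split_ifs at h with h7
          rw [Option.some.injEq] at h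
          rw [← h]
          exact h7.choose_spec
        exact ⟨(h1.i1 _ h6).2.2.1, hownE _ h6⟩
    · intro c τ h
      rw [hs'] at h
      simp only at h
      split_ifs at h with h5 h6 h7
      · exact hs.g2 c τ h
      · rw [Option.some.injEq] at h
        exact absurd h (by simp)
      · rw [Option.some.injEq, Sum.inr.injEq] at h
        have h8 := h7.choose_spec
        rw [h] at h8
        exact ⟨(h1.i1 _ h8).2.2.1, (h1.i1 _ h8).1⟩
    · intro k b
      rw [hs']
      simp only
      split_ifs with h5 h6 h7
      · exact hs.g3 k b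
      · exact absurd h6.symm (hc0r k b)
      · obtain ⟨τ, h8⟩ := h7
        exact absurd rfl ((h1.i1 _ h8).2.2.2.2 k b)
      · rfl
    · intro c
      rw [hs']
      simp only
      split_ifs with h5
      · exact hs.g4 c
      · exact hwt1 c
  have hagree : Agree s s' n := by
    rw [hs']
    refine ⟨fun τ hτ => ?_, fun c hc => ?_⟩
    · simp only
      rw [if_pos hτ]
    · simp only
      rw [if_pos hc, if_pos hc]
      exact ⟨rfl, rfl⟩
  -- the bound
  obtain ⟨m', hm'1, hm'2, hm'3⟩ : ∃ m' : ℕ, n + 1 ≤ m' ∧ (∀ e ∈ E, e.1.1 < m') ∧ ∀ e ∈ Bl, e.1.length < m' := by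
    refine ⟨n + 1 + (E.map (fun e => e.1.1 + 1)).sum + (Bl.map (fun e => e.1.length + 1)).sum, by omega, ?_, ?_⟩
    · intro e he
      have := List.single_le_sum (l := E.map (fun e => e.1.1 + 1)) (by simp) (e.1.1 + 1)
        (List.mem_map.2 ⟨e, he, rfl⟩)
      omega
    · intro e he
      have := List.single_le_sum (l := Bl.map (fun e => e.1.length + 1)) (by simp) (e.1.length + 1)
        (List.mem_map.2 ⟨e, he, rfl⟩)
      omega
  refine ⟨s', m', hgood, hagree.mono hnm, by omega, ?_⟩
  intro s'' hs'' hag
  refine ⟨c0, ?_⟩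
  have hcomp : Compat s n E Bl s'' := by
    refine ⟨hs'', hagree.trans (hag.mono (by omega)), ?_, ?_⟩
    · intro e he
      rw [← hag.1 e.1 (hm'2 e he)]
      exact hnmE e he
    · intro e he h5
      have h6 := h2 e he
      have h7 := hm'3 e he
      rw [← (hag.2 e.1 (by omega)).2, hs'] at h5
      simp only at h5
      rw [if_neg (by omega)] at h5
      refine hwt2 e.1 h6 ?_
      rw [h5]
      exact he
  have hout : V.out (orc K φ s'') c0 = out := by
    unfold Alg.out
    rw [hc0l]
    exact h4 s'' hcomp
  have hval : val K φ s'' (orc K φ s'') c0 = decide (out ≠ some [true]) := by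
    unfold val
    rw [← (hag.2 c0 (by rw [hc0l]; omega)).1, hs']
    simp only
    rw [if_neg (by rw [hc0l]; omega)]
    simp only [if_true]
  have hmem : c0 ∈ Tset K φ s'' ↔ out ≠ some [true] := by
    unfold Tset
    rw [Set.mem_ofPred_eq, hval, decide_eq_true_eq]
    constructor
    · exact fun h => h.2
    · intro h
      refine ⟨?_, h⟩
      rw [hc0]
      simp
  rw [hmem, hout]
  tauto

end

end Pool.Agent.W2helper58.BR
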