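import Pool.Agent.W2helper58.BR.Game

/-!
# The limit of the stages
-/

set_option autoImplicit false

namespace Pool.Agent.W2helper58.BR

open Pool.Agent.NPC Pool.Agent.H620R2.Gauge

variable {K : Oracle → List Bool → Bool} (φ : ℕ → List Bool → Bool)

theorem limit (hK : Local K) (V : ℕ → Alg) : ∃ s : Script, Good s ∧ ∀ k, ∃ c : List Bool,
    ¬ (c ∈ Tset K φ s ↔ (V k).out (orc K φ s) c = some [true]) := by
  classical
  have st : ∀ (p : {p : Script × ℕ // Good p.1}) (k : ℕ), ∃ (s' : Script) (m' : ℕ), Good s' ∧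
      Agree p.1.1 s' p.1.2 ∧ p.1.2 < m' ∧ ∀ s'' : Script, Good s'' → Agree s' s'' m' →
      ∃ c : List Bool, ¬ (c ∈ Tset K φ s'' ↔ (V k).out (orc K φ s'') c = some [true]) :=
    fun p k => stage φ hK p.1.1 p.2 p.1.2 (V k)
  choose S' M' hG hA hlt hP using st
  obtain ⟨init, hinit⟩ : ∃ init : {p : Script × ℕ // Good p.1},
      init = ⟨(⟨fun _ => none, fun _ => none, fun c => c⟩, 0), ⟨by simp, by simp, by simp, by simp⟩⟩ := ⟨_, rfl⟩
  obtain ⟨sq, hsq0, hsq⟩ : ∃ sq : ℕ → {p : Script × ℕ // Good p.1}, sq 0 = init ∧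
      ∀ k, sq (k + 1) = ⟨(S' (sq k) k, M' (sq k) k), hG (sq k) k⟩ :=
    ⟨fun n => Nat.rec init (fun k p => ⟨(S' p k, M' p k), hG p k⟩) n, rfl, fun _ => rfl⟩
  have hS : ∀ k, (sq (k + 1)).1.1 = S' (sq k) k := fun k => by rw [hsq k]
  have hM : ∀ k, (sq (k + 1)).1.2 = M' (sq k) k := fun k => by rw [hsq k]
  have hMlt : ∀ k, (sq k).1.2 < (sq (k + 1)).1.2 := fun k => by rw [hM]; exact hlt _ _
  have hMmono : ∀ k d, (sq k).1.2 + d ≤ (sq (k + d)).1.2 := by
    intro k d
    induction d with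
    | zero => rfl
    | succ d ih =>
      have := hMlt (k + d)
      change (sq k).1.2 + (d + 1) ≤ (sq (k + d + 1)).1.2
      omega
  have hMk : ∀ k, k ≤ (sq k).1.2 := by
    intro k
    have := hMmono 0 k
    rw [Nat.zero_add] at this
    omega
  have hag : ∀ k d, Agree (sq k).1.1 (sq (k + d)).1.1 (sq k).1.2 := by
    intro k d
    induction d with
    | zero => exact Agree.refl _ _
    | succ d ih =>
      refine ih.trans ?_
      rw [← Nat.add_assoc, hS]
      refine (hA (sq (k + d)) (k + d)).mono ?_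
      have := hMmono k d
      omega
  obtain ⟨s, hs⟩ : ∃ s : Script, s = ⟨fun τ => (sq (τ.1 + 1)).1.1.nm τ, fun c => (sq (c.length - 1 + 1)).1.1.own c,
    fun c => (sq (c.length - 1 + 1)).1.1.wit c⟩ := ⟨_, rfl⟩
  have hgen : ∀ k x, x < (sq k).1.2 → Agree (sq k).1.1 (sq (x + 1)).1.1 (x + 1) := by
    intro k x hx
    rcases Nat.le_total k (x + 1) with h | h
    · obtain ⟨d, hd⟩ := Nat.exists_eq_add_of_le h
      have h1 := hag k d
      rw [← hd] at h1
      exact h1.mono (by omega)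
    · obtain ⟨d, hd⟩ := Nat.exists_eq_add_of_le h
      have h1 := hag (x + 1) d
      rw [← hd] at h1
      exact (h1.mono (hMk (x + 1))).symm
  have hagS : ∀ k, Agree (sq k).1.1 s (sq k).1.2 := by
    intro k
    refine ⟨fun τ hτ => ?_, fun c hc => ?_⟩
    · rw [hs]
      exact (hgen k τ.1 hτ).1 τ (Nat.lt_succ_self _)
    · rw [hs]
      exact (hgen k (c.length - 1) hc).2 c (Nat.lt_succ_self _)
  have hgood : Good s := by
    refine ⟨?_, ?_, ?_, ?_⟩
    · intro τ c h
      rw [hs] at h ⊢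
      simp only at h ⊢
      obtain ⟨h1, h2⟩ := (sq (τ.1 + 1)).2.g1 τ c h
      have h3 : c.length - 1 + 1 = τ.1 + 1 := by omega
      rw [h3]
      exact ⟨h1, h2⟩
    · intro c τ h
      rw [hs] at h
      exact (sq (c.length - 1 + 1)).2.g2 c τ h
    · intro n b
      rw [hs]
      exact (sq ((List.replicate (n + 1) b).length - 1 + 1)).2.g3 n b
    · intro c
      rw [hs]
      exact (sq (c.length - 1 + 1)).2.g4 c
  refine ⟨s, hgood, fun k => ?_⟩
  refine hP (sq k) k s hgood ?_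
  rw [← hS, ← hM]
  exact hagS (k + 1)

end Pool.Agent.W2helper58.BR
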