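import Pool.Agent.W2helper58.BR.Limit
import Pool.Agent.H620R2.Gauge.C
import Pool.Agent.W2helper58.BR.Cls

/-!
# The universal language and the classes
-/

set_option autoImplicit false

namespace Pool.Agent.W2helper58.BR

open Pool.Agent.NPC Pool.Agent.H620R2.Gauge Pool.Agent.H622R2

theorem IsUP.isNP {A : Oracle} {L : Set (List Bool)} (h : IsUP A L) : IsNP A L := by
  obtain ⟨V, p, h1, h2, _⟩ := h
  exact ⟨V, p, h1, h2⟩

instance : Nonempty Alg := ⟨⟨_, CC.const_polyTime [], 0⟩⟩

theorem exists_enum2 : ∃ g : ℕ → Alg × Polynomial ℕ, Function.Surjective g := by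
  have h1 := CC.poly_countable
  exact exists_surjective_nat _

theorem exists_bound (M : Alg) (p : Polynomial ℕ) : ∃ B : Polynomial ℕ, ∀ (A A' : Oracle) (x w : List Bool),
    w.length ≤ p.eval x.length → (∀ u : List Bool, u.length ≤ B.eval x.length → A u = A' u) →
    M.out A (pairBits w x) = M.out A' (pairBits w x) := by
  obtain ⟨qb, hqb⟩ := M.out_local
  refine ⟨qb.comp (Polynomial.C 2 * p + 1 + Polynomial.X), fun A A' x w hw hA => ?_⟩
  obtain ⟨Q, _, h2, h3⟩ := hqb A (pairBits w x)
  refine (h3 A' fun q hq => (hA q ((h2 q hq).trans ?_)).symm).symm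
  rw [Polynomial.eval_comp]
  apply eval_mono
  rw [Pool.Agent.H620R2.Gauge.length_pairBits]
  simp only [Polynomial.eval_add, Polynomial.eval_mul, Polynomial.eval_C, Polynomial.eval_X, Polynomial.eval_one]
  omega

/-- the enumeration of the machines -/
noncomputable def en : ℕ → Alg × Polynomial ℕ := exists_enum2.choose

theorem en_surj : Function.Surjective en := exists_enum2.choose_spec

/-- the bound for the lengths of the questions -/
noncomputable def qB (e : ℕ) : Polynomial ℕ := (exists_bound (en e).1 (en e).2).choose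

theorem qB_spec (e : ℕ) : ∀ (A A' : Oracle) (x w : List Bool),
    w.length ≤ (en e).2.eval x.length → (∀ u : List Bool, u.length ≤ (qB e).eval x.length → A u = A' u) →
    (en e).1.out A (pairBits w x) = (en e).1.out A' (pairBits w x) :=
  (exists_bound (en e).1 (en e).2).choose_spec

/-- the machine number `e` accepts `x` -/
def Acc (A : Oracle) (e : ℕ) (x : List Bool) : Prop :=
  ∃ w : List Bool, w.length ≤ (en e).2.eval x.length ∧ (en e).1.out A (pairBits w x) = some [true]

open Classical in
/-- the universal language -/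
noncomputable def UK (A : Oracle) (y : List Bool) : Bool :=
  decide (∃ (e : ℕ) (x : List Bool), y = code qB e x ∧ Acc A e x)

theorem UK_code (A : Oracle) (e : ℕ) (x : List Bool) : UK A (code qB e x) = true ↔ Acc A e x := by
  classical
  unfold UK
  rw [decide_eq_true_eq]
  constructor
  · rintro ⟨e', x', h1, h2⟩
    obtain ⟨rfl, rfl⟩ := CC.code_inj qB h1
    exact h2
  · intro h
    exact ⟨e, x, rfl, h⟩

theorem UK_local : Local UK := by
  classical
  have key : ∀ (A A' : Oracle) (y : List Bool), (∀ u : List Bool, u.length ≤ y.length → A u = A' u) →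
      UK A y = true → UK A' y = true := by
    intro A A' y h h1
    unfold UK at h1 ⊢
    rw [decide_eq_true_eq] at h1 ⊢
    obtain ⟨e, x, h2, w, h3, h4⟩ := h1
    refine ⟨e, x, h2, w, h3, ?_⟩
    rw [← h4]
    refine (qB_spec e A A' x w h3 fun u hu => h u (hu.trans ?_)).symm
    rw [h2]
    exact (CC.lt_length_code qB e x).le
  intro A A' y h
  rw [Bool.eq_iff_iff]
  exact ⟨key A A' y h, key A' A y fun u hu => (h u hu).symm⟩

/-- each language in `NP` reduces to the universal language -/
theorem exists_code {A : Oracle} {L : Set (List Bool)} (hL : IsNP A L) : ∃ r : List Bool → List Bool, Poly r ∧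
    ∀ x, x ∈ L ↔ UK A (r x) = true := by
  obtain ⟨V, p, ⟨M, hM⟩, hV⟩ := hL
  obtain ⟨e, he⟩ := en_surj (M, p)
  refine ⟨code qB e, CC.poly_code qB e, fun x => ?_⟩
  rw [UK_code, hV x]
  unfold Acc
  rw [he]
  refine exists_congr fun w => and_congr_right fun _ => ?_
  rw [hM]
  simp

section

variable (φ : ℕ → List Bool → Bool)

/-- the question for the witness -/
theorem T_up (s : Script) (hs : Good s) (bb : Bool) : IsUP (orc UK φ s) {c | c ≠ [] ∧ val UK φ s (orc UK φ s) c = bb} := by
  obtain ⟨Q, hQ⟩ : ∃ Q : List Bool → List (List Bool), Q = fun y => [wq bb (unpair y).2 (unpair y).1] := ⟨_, rfl⟩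
  obtain ⟨H, hH⟩ : ∃ H : List Bool × List Bool → List Bool, H = fun q =>
    if (unpair q.1).1.length = (unpair q.1).2.length then q.2 else [] := ⟨_, rfl⟩
  have hy1 : Poly (fun y : List Bool => (unpair y).1) := Poly.fst poly_unpair
  have hy2 : Poly (fun y : List Bool => (unpair y).2) := Poly.snd poly_unpair
  have hQp : Poly Q := by
    rw [hQ]
    unfold wq
    exact NPC.Poly.cons (NPC.Poly.cons (NPC.Poly.const _) (NPC.Poly.cons (NPC.Poly.const _)
      (NPC.Poly.append hy2 hy1))) (NPC.Poly.const _)
  have hHp : Poly H := by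
    rw [hH]
    exact NPC.Poly.ite (NPC.Poly.decide_eq (NPC.Poly.length (hy1.comp (NPC.Poly.fst NPC.Poly.id)))
      (NPC.Poly.length (hy2.comp (NPC.Poly.fst NPC.Poly.id)))) (NPC.Poly.snd NPC.Poly.id) (NPC.Poly.const _)
  have hV := IsFP.tt (A := orc UK φ s) hQp hHp
  have key : ∀ w c : List Bool, (H (pairBits w c, (Q (pairBits w c)).map (orc UK φ s)) = [true] ↔
      w.length = c.length ∧ orc UK φ s (wq bb c w) = true) := by
    intro w c
    rw [hH, hQ]
    simp only [unpair_pairBits, List.map_cons, List.map_nil]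
    split_ifs with h
    · simp [h]
    · simp [h]
  have key2 : ∀ w c : List Bool, (w.length = c.length ∧ orc UK φ s (wq bb c w) = true) ↔
      (c ≠ [] ∧ w = s.wit c ∧ val UK φ s (orc UK φ s) c = bb) := by
    intro w c
    constructor
    · rintro ⟨h1, h2⟩
      by_cases hc : c = []
      · subst hc
        have hw : w = [] := List.length_eq_zero_iff.1 h1
        subst hw
        rw [orc_none UK φ s (dec_wq_nil bb)] at h2
        exact absurd h2 (by simp)
      · rw [orc_wq φ UK_local hs bb hc h1, Bool.and_eq_true, decide_eq_true_eq, beq_iff_eq] at h2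
        exact ⟨hc, h2.1, h2.2.symm⟩
    · rintro ⟨h1, h2, h3⟩
      have h4 : w.length = c.length := by rw [h2]; exact hs.g4 c
      refine ⟨h4, ?_⟩
      rw [orc_wq φ UK_local hs bb h1 h4, Bool.and_eq_true, decide_eq_true_eq, beq_iff_eq]
      exact ⟨h2, h3.symm⟩
  refine ⟨_, Polynomial.X, hV, ?_, ?_⟩
  · intro c
    simp only [Polynomial.eval_X]
    constructor
    · rintro ⟨h1, h2⟩
      refine ⟨s.wit c, (hs.g4 c).le, ?_⟩
      rw [key, key2]
      exact ⟨h1, rfl, h2⟩
    · rintro ⟨w, _, h2⟩
      rw [key, key2] at h2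
      exact ⟨h2.1, h2.2.2⟩
  · intro c w w' _ h2 _ h4
    rw [key, key2] at h2 h4
    rw [h2.2.1, h4.2.1]

end

end Pool.Agent.W2helper58.BR
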